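import Mathlib
import Pool.Agent.H902.CB.Uni

set_option autoImplicit false

/-!
# Uniform fat points: a bounded number of points suffices

* (1) Let `m ≥ 3`. If for some `n > 9` the statement of Q1 fails for `n` points of multiplicity `m`,
  then one of the following classes is special, with `m` the same number:
  - `Plane m`: `k` points of multiplicity `m`, `10 ≤ k ≤ 29`, in a degree `3 m < d ≤ (21 m + 7) / 4`;
  - `Ruled m`: a point of multiplicity `d - b` and `k ≤ 20` points of multiplicity `m`,
    `2 m < b ≤ 9 m / 4 + 1` (curves with `k` points of multiplicity `m` on the surface `F_1`, `b` is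
    the degree on the fibres);
  - `Quadric m`: points of multiplicities `a - m`, `b - m` and `k ≤ 12` points of multiplicity `m`, in
    degree `a + b - m`, `2 m < a, b ≤ 9 m / 4 + 1` (curves of bidegree `(a, b)` on a quadric with
    `k + 1` points of multiplicity `m`).
  In all cases the virtual dimension is `Critical`: adding or removing one point changes its sign.
* (2) For classes in which all multiplicities are between `μ` and `K μ`, and any three of them have
  sum at most `d`, with any number of points: if such a class is special, then there is a special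
  class with at most `36 K ^ 2` points in a degree `d' < (21 K μ + 8) / 4`, in which any three
  multiplicities have sum at most `d'`, and all but at most two are between `μ` and `K μ`.

Idea: the exponents of the forms of degree `d` are cut by lines into strips and rectangles; a group of
points fills a piece up to a part of one row, which is left to the next group
(`Pool.Agent.H902.CB.glue_tri`, `Pool.Agent.H902.CB.glue_loc`). The pieces are again classes of the
same kind, because they become standard after a quadratic transformation.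
-/

namespace Pool.Agent.Results.MP_d03834_ag.BoundedNumberOfPoints

open MvPolynomial

/-- The homogeneous ideal of the point `(p 0 : p 1 : 1)`. -/
noncomputable def pt (p : Fin 2 → ℂ) : Ideal (MvPolynomial (Fin 3) ℂ) :=
  Ideal.span {X 0 - C (p 0) * X 2, X 1 - C (p 1) * X 2}

/-- The space of the forms of degree `d` with multiplicity at least `w i` at `P i` for all `i`. -/
noncomputable def forms {n : ℕ} (P : Fin n → Fin 2 → ℂ) (w : Fin n → ℕ) (d : ℕ) :
    Submodule ℂ (MvPolynomial (Fin 3) ℂ) :=
  homogeneousSubmodule (Fin 3) ℂ d ⊓ Submodule.restrictScalars ℂ (⨅ i : Fin n, pt (P i) ^ (w i))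

/-- The virtual dimension (of the vector space). -/
def chi {n : ℕ} (w : Fin n → ℕ) (d : ℕ) : ℤ :=
  ((d + 2).choose 2 : ℤ) - ∑ i : Fin n, ((w i + 1).choose 2 : ℤ)

/-- The property holds for all `n`-tuples of points outside some hypersurface. -/
def General {n : ℕ} (p : (Fin n → Fin 2 → ℂ) → Prop) : Prop :=
  ∃ F : MvPolynomial (Fin n × Fin 2) ℂ, F ≠ 0 ∧ ∀ P : Fin n → Fin 2 → ℂ,
    eval (fun q : Fin n × Fin 2 => P q.1 q.2) F ≠ 0 → p P

/-- The linear system is not special at general points. -/
def Expected {n : ℕ} (w : Fin n → ℕ) (d : ℕ) : Prop :=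
  General fun P => (Module.finrank ℂ (forms P w d) : ℤ) = max 0 (chi w d)

/-- The statement of Q1 for `n` points of multiplicity `m`. -/
def Uniform (n m : ℕ) : Prop :=
  General fun P : Fin n → Fin 2 → ℂ => ∀ d : ℕ, 0 < d →
    (Module.finrank ℂ (forms P (fun _ => m) d) : ℤ) =
      max 0 (((d + 2).choose 2 : ℤ) - n * ((m + 1).choose 2 : ℤ))

/-- The virtual dimension is smaller than the number of conditions of one `m`-fold point, in absolute
value. -/
def Critical {n : ℕ} (m : ℕ) (w : Fin n → ℕ) (d : ℕ) : Prop := |chi w d| < ((m + 1).choose 2 : ℤ)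

/-- A special class with `k` points of multiplicity `m`. -/
def Plane (m : ℕ) : Prop :=
  ∃ k d : ℕ, 10 ≤ k ∧ k ≤ 29 ∧ 3 * m < d ∧ 4 * d ≤ 21 * m + 7 ∧
    Critical m (fun _ : Fin k => m) d ∧ ¬ Expected (fun _ : Fin k => m) d

/-- A special class with a point of multiplicity `d - b` and `k` points of multiplicity `m`. -/
def Ruled (m : ℕ) : Prop :=
  ∃ k d b : ℕ, k ≤ 20 ∧ 3 * m ≤ d ∧ 4 * d ≤ 21 * m + 7 ∧ 2 * m < b ∧ 4 * b ≤ 9 * m + 4 ∧
    Critical m (Fin.cons (d - b) fun _ : Fin k => m : Fin (k + 1) → ℕ) d ∧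
    ¬ Expected (Fin.cons (d - b) fun _ : Fin k => m : Fin (k + 1) → ℕ) d

/-- A special class with points of multiplicities `a - m`, `b - m` and `k` points of multiplicity
`m`, in degree `a + b - m`. -/
def Quadric (m : ℕ) : Prop :=
  ∃ k a b : ℕ, k ≤ 12 ∧ 2 * m < a ∧ 4 * a ≤ 9 * m + 4 ∧ 2 * m < b ∧ 4 * b ≤ 9 * m + 4 ∧
    Critical m (Fin.cons (a - m) (Fin.cons (b - m) fun _ : Fin k => m) : Fin (k + 2) → ℕ)
      (a + b - m) ∧
    ¬ Expected (Fin.cons (a - m) (Fin.cons (b - m) fun _ : Fin k => m) : Fin (k + 2) → ℕ)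
      (a + b - m)

/-- Any (at most) three of the multiplicities have sum at most `d`. -/
def Standard {n : ℕ} (w : Fin n → ℕ) (d : ℕ) : Prop :=
  ∀ t : Finset (Fin n), t.card ≤ 3 → ∑ i ∈ t, w i ≤ d

theorem key {n : ℕ} (P : Fin n → Fin 2 → ℂ) (w : Fin n → ℕ) (d : ℕ) :
    (Module.finrank ℂ (forms P w d) : ℤ) = max 0 (chi w d) ↔
      Pool.Agent.H932R3.ExpDim ℂ w P d := by
  have h1 : (∑ i : Fin n, ((w i + 1).choose 2 : ℤ)) =
      ((∑ i : Fin n, (w i + 1).choose 2 : ℕ) : ℤ) := by push_cast; rfl
  have h2 : Pool.Agent.H932R3.ExpDim ℂ w P d ↔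
      Module.finrank ℂ (forms P w d) = (d + 2).choose 2 - ∑ i : Fin n, (w i + 1).choose 2 :=
    Iff.rfl
  rw [h2]
  unfold chi
  rw [h1]
  constructor
  · intro h
    omega
  · intro h
    rw [h]
    omega

theorem expected_iff {n : ℕ} (w : Fin n → ℕ) (d : ℕ) :
    Expected w d ↔ Pool.Agent.H902.CB.NSw w d := by
  unfold Expected General Pool.Agent.H902.CB.NSw
  constructor
  · rintro ⟨F, hF, h⟩
    exact ⟨F, hF, fun P hP => (key P w d).1 (h P hP)⟩
  · rintro ⟨F, hF, h⟩
    exact ⟨F, hF, fun P hP => (key P w d).2 (h P hP)⟩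

open Pool.Agent.H902.CB

theorem expected_EIM {n : ℕ} {w : Fin n → ℕ} {d : ℕ} {s : Multiset ℕ}
    (hs : (Finset.univ : Finset (Fin n)).val.map w = s) :
    Expected w d ↔ EIM s (PT d d d) := by
  rw [expected_iff, EIM_iff hs]
  exact gen_iff

theorem critical_of {n : ℕ} {m d : ℕ} {w : Fin n → ℕ} {s : Multiset ℕ}
    (hs : (Finset.univ : Finset (Fin n)).val.map w = s) (h : Near m s d) : Critical m w d := by
  have h1 : (∑ i : Fin n, (w i + 1).choose 2) = cM s := cond_cM hs
  obtain ⟨h2, h3⟩ := h
  unfold Critical chi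
  rw [← h1] at h2 h3
  zify at h2 h3
  rw [abs_lt]
  constructor <;> linarith

theorem part_one {m n : ℕ} (hm : 3 ≤ m) (hn : 9 < n) (h : ¬ Uniform n m) :
    Plane m ∨ Ruled m ∨ Quadric m := by
  by_contra hcon
  push Not at hcon
  obtain ⟨c1, c2, c3⟩ := hcon
  apply h
  have v1 := vals_const
  have v2 : ∀ k x, (Finset.univ : Finset (Fin (k + 1))).val.map
      (Fin.cons x fun _ : Fin k => m : Fin (k + 1) → ℕ) = x ::ₘ Multiset.replicate k m :=
    fun k x => by rw [vals_fcons, vals_const]
  have v3 : ∀ k x y, (Finset.univ : Finset (Fin (k + 2))).val.map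
      (Fin.cons x (Fin.cons y fun _ : Fin k => m) : Fin (k + 2) → ℕ) =
        x ::ₘ y ::ₘ Multiset.replicate k m :=
    fun k x y => by rw [vals_fcons, vals_fcons, vals_const]
  have r0 : ∀ k, cM (Multiset.replicate k m) = k * (m + 1).choose 2 := fun k => by
    rw [← zero_add (Multiset.replicate k m), cM_rep, cM_zero, zero_add]
  have t0 := two_chN m
  have main := uni (m := m) (by omega)
    (fun k d hk hd1 hd2 hN => by
      by_contra hE
      refine c1 ⟨k, d, hk, ?_, hd1, by omega, critical_of (v1 k m) hN,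
        fun h' => hE ((expected_EIM (v1 k m)).1 h')⟩
      have h1 := hN.2
      rw [r0] at h1
      have t1 : 2 * (d + 2).choose 2 = (d + 1) * (d + 1 + 1) := two_chN (d + 1)
      have hb : (d + 1) * (d + 1 + 1) ≤ 29 * (m * (m + 1)) := by
        rcases Nat.lt_or_ge m 5 with h5 | h5
        · interval_cases m
          · have : d ≤ 17 := by omega
            interval_cases d <;> norm_num
          · have : d ≤ 22 := by omega
            interval_cases d <;> norm_num
        · have h6 : 16 * ((d + 1) * (d + 1 + 1)) ≤ (21 * m + 11) * (21 * m + 15) := by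
            have a1 : 4 * (d + 1) ≤ 21 * m + 11 := by omega
            have a2 : 4 * (d + 1 + 1) ≤ 21 * m + 15 := by omega
            have := Nat.mul_le_mul a1 a2
            nlinarith
          nlinarith
      by_contra hk2
      have h7 : 30 * (m + 1).choose 2 ≤ k * (m + 1).choose 2 := Nat.mul_le_mul_right _ (by omega)
      omega)
    (fun k d b hd1 hd2 hb1 hb2 hbd hN => by
      by_contra hE
      refine c2 ⟨k, d, b, ?_, hd1, by omega, hb1, hb2, critical_of (v2 k (d - b)) hN,
        fun h' => hE ((expected_EIM (v2 k (d - b))).1 h')⟩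
      have h1 := hN.2
      rw [cM_cons, r0] at h1
      have t1 := two_chN (d + 1)
      have t2 := two_chN (d - b)
      have hb : (b + 1) * (2 * d + 2 - b) ≤ 20 * (m * (m + 1)) := by
        rcases Nat.lt_or_ge m 6 with h5 | h5
        · interval_cases m
          · have : d ≤ 17 := by omega
            have : b = 7 := by omega
            subst this
            omega
          · have : d ≤ 22 := by omega
            have : b = 9 ∨ b = 10 := by omega
            rcases this with rfl | rfl <;> omega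
          · have : d ≤ 28 := by omega
            have : b = 11 ∨ b = 12 := by omega
            rcases this with rfl | rfl <;> omega
        · obtain ⟨u, hu⟩ : ∃ u, 9 * m + 4 = 4 * b + u := ⟨9 * m + 4 - 4 * b, by omega⟩
          obtain ⟨v, hv⟩ : ∃ v, 21 * m + 7 = 4 * d + v := ⟨21 * m + 7 - 4 * d, by omega⟩
          zify at hu hv ⊢
          rw [Nat.cast_sub (by omega)]
          push_cast
          have hbz : (b : ℤ) = (9 * m + 4 - u) / 4 := by omega
          have h8 : (16 : ℤ) * ((b + 1) * (2 * d + 2 - b)) ≤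
              (9 * m + 8) * (33 * m + 18) := by
            have e1 : (4 : ℤ) * (b + 1) = 9 * m + 8 - u := by linarith
            have e2 : (4 : ℤ) * (2 * d + 2 - b) = 33 * m + 18 + u - 2 * v := by linarith
            have e3 : (16 : ℤ) * ((b + 1) * (2 * d + 2 - b)) =
                (9 * m + 8 - u) * (33 * m + 18 + u - 2 * v) := by
              rw [← e1, ← e2]
              ring
            rw [e3]
            have hu0 : (0 : ℤ) ≤ u := Int.natCast_nonneg u
            have hv0 : (0 : ℤ) ≤ v := Int.natCast_nonneg v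
            have hb0 : (0 : ℤ) ≤ 9 * m + 8 - u := by rw [← e1]; positivity
            have h9 : (9 * (m : ℤ) + 8 - u) * (33 * m + 18 + u - 2 * v) ≤
                (9 * m + 8 - u) * (33 * m + 18 + u) :=
              mul_le_mul_of_nonneg_left (by linarith) hb0
            nlinarith
          zify at h5
          nlinarith
      obtain ⟨e, he⟩ : ∃ e, d = b + e := ⟨d - b, by omega⟩
      subst he
      rw [Nat.add_sub_cancel_left] at t2 h1
      rw [show 2 * (b + e) + 2 - b = b + 2 * e + 2 by omega] at hb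
      by_contra hk2
      have h7 : 21 * (m + 1).choose 2 ≤ k * (m + 1).choose 2 := Nat.mul_le_mul_right _ (by omega)
      nlinarith)
    (fun k a b ha1 ha2 hb1 hb2 hN => by
      by_contra hE
      refine c3 ⟨k, a, b, ?_, ha1, ha2, hb1, hb2, critical_of (v3 k (a - m) (b - m)) hN,
        fun h' => hE ((expected_EIM (v3 k (a - m) (b - m))).1 h')⟩
      have h1 := hN.2
      rw [cM_cons, cM_cons, r0] at h1
      have t1 := two_chN (a + b - m + 1)
      have t2 := two_chN (a - m)
      have t3 := two_chN (b - m)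
      have hb : 8 * ((a + 1) * (b + 1)) ≤ 52 * (m * (m + 1)) := by
        have a1 : 4 * (a + 1) ≤ 9 * m + 8 := by omega
        have a2 : 4 * (b + 1) ≤ 9 * m + 8 := by omega
        have := Nat.mul_le_mul a1 a2
        nlinarith
      obtain ⟨a', rfl⟩ : ∃ a', a = a' + m := ⟨a - m, by omega⟩
      obtain ⟨b', rfl⟩ : ∃ b', b = b' + m := ⟨b - m, by omega⟩
      rw [Nat.add_sub_cancel] at t2 t3
      rw [show a' + m + (b' + m) - m = a' + b' + m by omega] at t1 h1
      rw [Nat.add_sub_cancel, Nat.add_sub_cancel] at h1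
      by_contra hk2
      have h7 : 13 * (m + 1).choose 2 ≤ k * (m + 1).choose 2 := Nat.mul_le_mul_right _ (by omega)
      nlinarith)
  obtain ⟨F, hF, hF'⟩ := uni_open (m := m) (n := n) (by omega) (by omega) (fun d hd => main n d hd)
  refine ⟨F, hF, fun P hP d _ => ?_⟩
  have h1 := (key P (fun _ => m) d).2 (hF' P hP d)
  rw [h1]
  unfold chi
  simp

theorem part_two {K μ n : ℕ} (hK : 1 ≤ K) (hμ : 1 ≤ μ) {w : Fin n → ℕ} {d : ℕ}
    (hw : ∀ i, μ ≤ w i ∧ w i ≤ K * μ) (hst : Standard w d) (h : ¬ Expected w d) :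
    ∃ (n' : ℕ) (w' : Fin n' → ℕ) (d' : ℕ), n' ≤ 36 * K ^ 2 ∧ 4 * d' ≤ 21 * (K * μ) + 7 ∧
      Standard w' d' ∧
      (Finset.univ.filter fun i => ¬ (μ ≤ w' i ∧ w' i ≤ K * μ)).card ≤ 2 ∧ ¬ Expected w' d' := by
  by_contra hcon
  apply h
  rw [expected_iff]
  refine few2 (μ := μ) (M := K * μ) (N := 36 * K ^ 2) hμ (Nat.le_mul_of_pos_left μ hK) ?_ ?_ w hw
    hst
  · intro d hd
    have a1 : 4 * (d + 1) ≤ 21 * (K * μ) + 11 := by omega
    have a2 : 4 * (d + 2) ≤ 21 * (K * μ) + 15 := by omega
    have a3 := Nat.mul_le_mul a1 a2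
    obtain ⟨M, hM⟩ : ∃ M, M = K * μ := ⟨_, rfl⟩
    rw [← hM] at a3
    have h1 : 1 ≤ M := by rw [hM]; exact Nat.mul_pos hK hμ
    have h2 : K ≤ M := by rw [hM]; exact Nat.le_mul_of_pos_right K hμ
    have h3 : 36 * K ^ 2 * (μ * (μ + 1)) = 36 * (M * M) + 36 * (K * M) := by
      rw [hM]
      ring
    have h4 : M ≤ K * M := Nat.le_mul_of_pos_left M hK
    rw [h3]
    nlinarith
  · intro n' hn' w' d' hd' hst' hab
    rw [← expected_iff]
    by_contra hE
    exact hcon ⟨n', w', d', hn', by omega, hst', hab, hE⟩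

theorem result :
    (∀ m n : ℕ, 3 ≤ m → 9 < n → ¬ Uniform n m → Plane m ∨ Ruled m ∨ Quadric m) ∧
    (∀ (K μ n : ℕ), 1 ≤ K → 1 ≤ μ → ∀ (w : Fin n → ℕ) (d : ℕ),
      (∀ i, μ ≤ w i ∧ w i ≤ K * μ) → Standard w d → ¬ Expected w d →
      ∃ (n' : ℕ) (w' : Fin n' → ℕ) (d' : ℕ), n' ≤ 36 * K ^ 2 ∧ 4 * d' ≤ 21 * (K * μ) + 7 ∧
        Standard w' d' ∧
        (Finset.univ.filter fun i => ¬ (μ ≤ w' i ∧ w' i ≤ K * μ)).card ≤ 2 ∧
        ¬ Expected w' d') :=
  ⟨fun _ _ hm hn h => part_one hm hn h, fun _ _ _ hK hμ _ _ hw hst h => part_two hK hμ hw hst h⟩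

end Pool.Agent.Results.MP_d03834_ag.BoundedNumberOfPoints
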